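import Mathlib

namespace Pool.Agent.Results.MP_965ec6_al.TooLarge

open Equiv

/-- A Mealy automaton with state set `A` and alphabet `S`: transition functions `δ i : A → A`
and production functions `ρ x : S → S`. -/
structure Mealy (A S : Type) where
  δ : S → A → A
  ρ : A → S → S

namespace Mealy

variable {A S : Type} (M : Mealy A S)

/-- The action of a state on finite words. -/
def act : A → List S → List S
  | _, [] => []
  | x, i :: w => M.ρ x i :: act (M.δ i x) w

/-- Every production function is a permutation of the alphabet. -/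
def IsInvertible : Prop := ∀ x, Function.Bijective (M.ρ x)

/-- Every transition function is a permutation of the states. -/
def IsReversible : Prop := ∀ i, Function.Bijective (M.δ i)

/-- Bireversible: invertible, reversible, and for every letter `j` the map
`x ↦ δ_{ρ_x⁻¹(j)}(x)` is a permutation of the states. -/
def IsBireversible : Prop :=
  M.IsInvertible ∧ M.IsReversible ∧
    ∀ (j : S) (σ : A → S), (∀ x, M.ρ x (σ x) = j) → Function.Bijective (fun x => M.δ (σ x) x)

/-- The group generated by the automaton: the group of bijections of the set of finite words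
generated by the actions of the states. -/
def grp : Subgroup (Perm (List S)) :=
  Subgroup.closure {g | ∃ x, ∀ w, g w = M.act x w}

end Mealy

/-! ### The automaton -/

/-- the cycle `0 → 1 → 2 → 0` on `Fin 4` -/
def c3 : Perm (Fin 4) := ⟨![1, 2, 0, 3], ![2, 0, 1, 3], by decide, by decide⟩

/-- transitions -/
def dl (i : Fin 4) : Perm (Fin 4) := if i = 3 then swap 2 3 else c3

/-- productions -/
def rh (x : Fin 4) : Perm (Fin 4) := if x = 0 then swap 0 1 else if x = 1 then c3 else 1

/-- the automaton -/
def M4 : Mealy (Fin 4) (Fin 4) := ⟨fun i => dl i, fun x => rh x⟩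

theorem rh_three (x : Fin 4) : rh x 3 = 3 := by revert x; decide

theorem dl_of_ne {i : Fin 4} (h : i ≠ 3) : dl i = c3 := by simp [dl, h]

theorem M4_bireversible : M4.IsBireversible := by
  refine ⟨fun x => (rh x).bijective, fun i => (dl i).bijective, ?_⟩
  intro j σ hσ
  have key : ∀ x, dl (σ x) = dl j := by
    intro x
    have h := hσ x
    change rh x (σ x) = j at h
    by_cases hj : j = 3
    · have : σ x = 3 := (rh x).injective (by rw [h, hj, rh_three])
      rw [this, hj]
    · have : σ x ≠ 3 := by
        intro h3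
        rw [h3, rh_three] at h
        exact hj h.symm
      rw [dl_of_ne this, dl_of_ne hj]
  have : (fun x => M4.δ (σ x) x) = fun x => dl j x := by
    funext x
    change dl (σ x) x = dl j x
    rw [key x]
  rw [this]
  exact (dl j).bijective

/-! ### The wreath recursion in closed form -/

/-- letter permutations fixing `3` -/
abbrev H : Subgroup (Perm (Fin 4)) := MulAction.stabilizer (Perm (Fin 4)) (3 : Fin 4)

theorem mem_H {π : Perm (Fin 4)} : π ∈ H ↔ π 3 = 3 := Iff.rfl

abbrev Γ : Type := Perm (Fin 4) → H

/-- action of `c : Γ` on words, the current coordinate being `d` -/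
def Act (c : Γ) : Perm (Fin 4) → List (Fin 4) → List (Fin 4)
  | _, [] => []
  | d, i :: w => (c d : Perm (Fin 4)) i :: Act c (dl i * d) w

theorem dl_H (π : H) (i : Fin 4) : dl ((π : Perm (Fin 4)) i) = dl i := by
  have h3 : (π : Perm (Fin 4)) 3 = 3 := π.2
  by_cases hi : i = 3
  · rw [hi, h3]
  · have : (π : Perm (Fin 4)) i ≠ 3 := by
      intro h
      exact hi ((π : Perm (Fin 4)).injective (by rw [h, h3]))
    rw [dl_of_ne this, dl_of_ne hi]

theorem Act_mul (c c' : Γ) (w : List (Fin 4)) : ∀ d, Act (c * c') d w = Act c d (Act c' d w) := by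
  induction w with
  | nil => intro d; rfl
  | cons i w ih =>
    intro d
    simp only [Act, dl_H]
    rw [ih]
    rfl

theorem Act_one (w : List (Fin 4)) : ∀ d, Act 1 d w = w := by
  induction w with
  | nil => intro d; rfl
  | cons i w ih =>
    intro d
    simp only [Act]
    rw [ih]
    rfl

/-- the action homomorphism -/
def Φ : Γ →* Perm (List (Fin 4)) where
  toFun c :=
    { toFun := Act c 1
      invFun := Act c⁻¹ 1
      left_inv := fun w => by rw [← Act_mul, inv_mul_cancel, Act_one]
      right_inv := fun w => by rw [← Act_mul, mul_inv_cancel, Act_one] }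
  map_one' := by ext1 w; exact Act_one w 1
  map_mul' c c' := by ext1 w; exact Act_mul c c' w 1

theorem Φ_apply (c : Γ) (w : List (Fin 4)) : Φ c w = Act c 1 w := rfl

/-- the element of `Γ` given by a state -/
def gen (x : Fin 4) : Γ := fun d => ⟨rh (d x), rh_three (d x)⟩

theorem Act_gen (x : Fin 4) (w : List (Fin 4)) : ∀ d, Act (gen x) d w = M4.act (d x) w := by
  induction w with
  | nil => intro d; rfl
  | cons i w ih =>
    intro d
    simp only [Act, Mealy.act]
    rw [ih]
    rfl

theorem grp_eq : M4.grp = (Subgroup.closure (Set.range gen)).map Φ := by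
  rw [MonoidHom.map_closure]
  unfold Mealy.grp
  congr 1
  ext g
  simp only [Set.mem_ofPred_eq, Set.mem_image, Set.mem_range, exists_exists_eq_and]
  constructor
  · rintro ⟨x, hx⟩
    refine ⟨x, ?_⟩
    ext1 w
    rw [hx w, Φ_apply, Act_gen]
    rfl
  · rintro ⟨x, hx⟩
    refine ⟨x, fun w => ?_⟩
    rw [← hx, Φ_apply, Act_gen]
    rfl

theorem grp_finite : Finite M4.grp := by
  rw [grp_eq]
  exact Set.Finite.to_subtype
    ((Set.toFinite ((Subgroup.closure (Set.range gen) : Subgroup Γ) : Set Γ)).image Φ)

/-! ### A large elementary abelian subgroup -/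

/-- ordered pairs of distinct states -/
abbrev P : Type := {ab : Fin 4 × Fin 4 // ab.1 ≠ ab.2}

/-- the embedding of the cyclic group of order three -/
def b3 : Multiplicative (ZMod 3) →* H where
  toFun z := ⟨c3 ^ (z.toAdd.val), by
    revert z; decide⟩
  map_one' := by decide
  map_mul' := by decide

/-- the pair read off at the coordinate `d` -/
def pr (d : Perm (Fin 4)) : P := ⟨(d.symm 0, d.symm 1), by
  intro h
  have := d.symm.injective h
  exact absurd this (by decide)⟩

/-- the elementary abelian subgroup -/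
def T : (P → Multiplicative (ZMod 3)) →* Γ where
  toFun f := fun d => b3 (f (pr d))
  map_one' := by funext d; simp
  map_mul' f g := by funext d; simp

theorem comm_fin : ∀ u v : Fin 4, u ≠ v →
    (rh v ^ 2) * (rh u ^ 3) * (rh v ^ 2)⁻¹ * (rh u ^ 3)⁻¹ = if u = 0 ∧ v = 1 then c3 else 1 := by
  decide

theorem single_mem (p : P) (z : Multiplicative (ZMod 3)) :
    T (Pi.mulSingle p z) ∈ Subgroup.closure (Set.range gen) := by
  obtain ⟨⟨a, b⟩, hab⟩ := p
  set p : P := ⟨(a, b), hab⟩ with hp
  have hg : T (Pi.mulSingle p (Multiplicative.ofAdd (1 : ZMod 3))) ∈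
      Subgroup.closure (Set.range gen) := by
    have hx : ∀ x, gen x ∈ Subgroup.closure (Set.range gen) := fun x =>
      Subgroup.subset_closure ⟨x, rfl⟩
    have : T (Pi.mulSingle p (Multiplicative.ofAdd (1 : ZMod 3))) =
        (gen b ^ 2) * (gen a ^ 3) * (gen b ^ 2)⁻¹ * (gen a ^ 3)⁻¹ := by
      funext d
      apply Subtype.ext
      have h1 := comm_fin (d a) (d b) (fun h => hab (d.injective h))
      have h2 : ((((gen b ^ 2) * (gen a ^ 3) * (gen b ^ 2)⁻¹ * (gen a ^ 3)⁻¹ : Γ) d : H) :
          Perm (Fin 4)) = (rh (d b) ^ 2) * (rh (d a) ^ 3) * (rh (d b) ^ 2)⁻¹ *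
            (rh (d a) ^ 3)⁻¹ := rfl
      rw [h2, h1]
      by_cases hd : d a = 0 ∧ d b = 1
      · rw [if_pos hd]
        have hpd : pr d = p := by
          apply Subtype.ext
          change (d.symm 0, d.symm 1) = (a, b)
          rw [← hd.1, ← hd.2, Equiv.symm_apply_apply, Equiv.symm_apply_apply]
        change ((b3 ((Pi.mulSingle p (Multiplicative.ofAdd (1 : ZMod 3)) :
          P → Multiplicative (ZMod 3)) (pr d)) : H) : Perm (Fin 4)) = c3
        rw [hpd, Pi.mulSingle_eq_same]
        decide
      · rw [if_neg hd]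
        have hpd : pr d ≠ p := by
          intro h
          apply hd
          have h' := congrArg Subtype.val h
          change (d.symm 0, d.symm 1) = (a, b) at h'
          have e1 := congrArg Prod.fst h'
          have e2 := congrArg Prod.snd h'
          change d.symm 0 = a at e1
          change d.symm 1 = b at e2
          rw [← e1, ← e2]
          simp
        change ((b3 ((Pi.mulSingle p (Multiplicative.ofAdd (1 : ZMod 3)) :
          P → Multiplicative (ZMod 3)) (pr d)) : H) : Perm (Fin 4)) = 1
        rw [Pi.mulSingle_eq_of_ne hpd, map_one]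
        rfl
    rw [this]
    exact mul_mem (mul_mem (mul_mem (pow_mem (hx b) 2) (pow_mem (hx a) 3))
      (inv_mem (pow_mem (hx b) 2))) (inv_mem (pow_mem (hx a) 3))
  have hz : z = (Multiplicative.ofAdd (1 : ZMod 3)) ^ (z.toAdd.val) := by
    revert z; decide
  rw [hz, Pi.mulSingle_pow, map_pow]
  exact pow_mem hg _

theorem T_mem (f : P → Multiplicative (ZMod 3)) :
    T f ∈ Subgroup.closure (Set.range gen) := by
  have : f ∈ (Subgroup.closure (Set.range gen)).comap T := by
    rw [← Finset.univ_prod_mulSingle f]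
    exact Subgroup.prod_mem _ fun p _ => single_mem p (f p)
  exact this

/-- the coordinate reached by a word -/
def acc : Perm (Fin 4) → List (Fin 4) → Perm (Fin 4)
  | d, [] => d
  | d, i :: w => acc (dl i * d) w

theorem Act_append (c : Γ) (w : List (Fin 4)) (j : Fin 4) :
    ∀ d, Act c d (w ++ [j]) = Act c d w ++ [(c (acc d w) : Perm (Fin 4)) j] := by
  induction w with
  | nil => intro d; rfl
  | cons i w ih =>
    intro d
    simp only [List.cons_append, Act, acc]
    rw [ih]

/-- words reaching all pairs -/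
def words : List (List (Fin 4)) :=
  [[], [0], [0, 0], [3, 0], [0, 3, 0], [3, 0, 0], [0, 0, 3, 0], [0, 3, 0, 0], [3, 0, 3, 0],
    [3, 0, 0, 3, 0], [3, 0, 3, 0, 0], [0, 3, 0, 0, 3, 0]]

theorem reach : ∀ a b : Fin 4, a ≠ b → ∃ w ∈ words, (acc 1 w) a = 0 ∧ (acc 1 w) b = 1 := by
  decide

theorem ΦT_injective : Function.Injective fun f : P → Multiplicative (ZMod 3) => Φ (T f) := by
  intro f g hfg
  funext p
  obtain ⟨⟨a, b⟩, hab⟩ := p
  obtain ⟨w, -, hwa, hwb⟩ := reach a b hab
  have h := congrArg (fun e : Perm (List (Fin 4)) => e (w ++ [0])) hfg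
  simp only [Φ_apply, Act_append] at h
  have h2 := List.append_inj_right' h rfl
  have hpr : pr (acc 1 w) = ⟨(a, b), hab⟩ := by
    apply Subtype.ext
    change ((acc 1 w).symm 0, (acc 1 w).symm 1) = (a, b)
    rw [← hwa, ← hwb, Equiv.symm_apply_apply, Equiv.symm_apply_apply]
  have h3 : (b3 (f (pr (acc 1 w))) : Perm (Fin 4)) 0 = (b3 (g (pr (acc 1 w))) : Perm (Fin 4)) 0 := by
    simpa [T] using h2
  rw [hpr] at h3
  have inj : ∀ y z : Multiplicative (ZMod 3), (b3 y : Perm (Fin 4)) 0 = (b3 z : Perm (Fin 4)) 0 →
      y = z := by decide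
  exact inj _ _ h3

theorem card_lower : 3 ^ 12 ≤ Nat.card M4.grp := by
  have := grp_finite
  have hmem : ∀ f, Φ (T f) ∈ M4.grp := by
    intro f
    rw [grp_eq]
    exact ⟨T f, T_mem f, rfl⟩
  have hinj : Function.Injective fun f : P → Multiplicative (ZMod 3) =>
      (⟨Φ (T f), hmem f⟩ : M4.grp) := by
    intro f g h
    exact ΦT_injective (congrArg Subtype.val h)
  have := Nat.card_le_card_of_injective _ hinj
  have hc : Nat.card (P → Multiplicative (ZMod 3)) = 3 ^ 12 := by
    rw [Nat.card_eq_fintype_card, Fintype.card_fun]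
    have h1 : Fintype.card (Multiplicative (ZMod 3)) = 3 := by decide
    have h2 : Fintype.card P = 12 := by decide
    rw [h1, h2]
  rw [← hc]
  exact this

/-- There is a `4`-letter `4`-state bireversible Mealy automaton whose group is finite of order
greater than `(4!)^4`; hence the conjectured bound `(p!)^q` is false. -/
theorem result :
    (∃ M : Mealy (Fin 4) (Fin 4), M.IsBireversible ∧ Finite M.grp ∧
      3 ^ 12 ≤ Nat.card M.grp ∧ (Nat.factorial 4) ^ 4 < Nat.card M.grp) ∧
    ¬ ∀ p q : ℕ, 1 ≤ p → 1 ≤ q → ∀ M : Mealy (Fin q) (Fin p), M.IsBireversible →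
      (Infinite M.grp ∨ Nat.card M.grp ≤ (Nat.factorial p) ^ q) := by
  have hlt : (Nat.factorial 4) ^ 4 < Nat.card M4.grp :=
    lt_of_lt_of_le (by decide) card_lower
  refine ⟨⟨M4, M4_bireversible, grp_finite, card_lower, hlt⟩, ?_⟩
  intro h
  rcases h 4 4 (by norm_num) (by norm_num) M4 M4_bireversible with h1 | h1
  · have := grp_finite
    exact not_finite M4.grp
  · exact absurd hlt (not_lt.mpr h1)

end Pool.Agent.Results.MP_965ec6_al.TooLarge
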